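import Mathlib

/-!
# Project FB, piece A1: the method of conditional expectations
-/

set_option autoImplicit false

namespace Pool.Agent.Helper52.FB

open Finset

/-- FB-A1 (method of conditional expectations for functions affine in each coordinate). -/
theorem exists_zero_one (X : Finset ℕ) (p : ℕ → ℝ) (hp0 : ∀ x, 0 ≤ p x) (hp1 : ∀ x, p x ≤ 1)
    (Φ : (ℕ → ℝ) → ℝ)
    (hΦ : ∀ x ∈ X, ∀ ω : ℕ → ℝ, Φ (Function.update ω x (p x)) =
      (1 - p x) * Φ (Function.update ω x 0) + p x * Φ (Function.update ω x 1)) :
    ∃ R ⊆ X, (∀ x ∈ X, p x = 1 → x ∈ R) ∧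
      Φ (fun x => if x ∈ X then (if x ∈ R then 1 else 0) else p x) ≤ Φ p := by
  classical
  induction X using Finset.induction_on with
  | empty => exact ⟨∅, Subset.rfl, by simp, by simp⟩
  | insert a S ha ih =>
    obtain ⟨R, hRS, h1, hle⟩ := ih (fun x hx => hΦ x (mem_insert_of_mem hx))
    set ω : ℕ → ℝ := fun x => if x ∈ S then (if x ∈ R then 1 else 0) else p x with hω
    have haR : a ∉ R := fun h => ha (hRS h)
    have hωa : Function.update ω a (p a) = ω := by
      have : ω a = p a := by simp [hω, ha]
      rw [← this, Function.update_eq_self]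
    have hstep := hΦ a (mem_insert_self a S) ω
    rw [hωa] at hstep
    have e1 : Function.update ω a 1 =
        fun x => if x ∈ insert a S then (if x ∈ insert a R then 1 else 0) else p x := by
      funext x
      by_cases hx : x = a
      · subst hx; simp
      · simp [hω, hx]
    have e0 : Function.update ω a 0 =
        fun x => if x ∈ insert a S then (if x ∈ R then 1 else 0) else p x := by
      funext x
      by_cases hx : x = a
      · subst hx; simp [haR]
      · simp [hω, hx]
    by_cases hc : Φ (Function.update ω a 1) ≤ Φ ω
    · refine ⟨insert a R, insert_subset_insert a hRS, ?_, ?_⟩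
      · intro x hx hpx
        rcases mem_insert.1 hx with rfl | hx
        · exact mem_insert_self _ _
        · exact mem_insert_of_mem (h1 x hx hpx)
      · rw [← e1]; exact hc.trans hle
    · have hc' : Φ ω < Φ (Function.update ω a 1) := not_le.1 hc
      have hpa : p a ≠ 1 := by
        intro h
        rw [h] at hstep
        simp at hstep
        linarith
      refine ⟨R, hRS.trans (subset_insert a S), ?_, ?_⟩
      · intro x hx hpx
        rcases mem_insert.1 hx with rfl | hx
        · exact absurd hpx hpa
        · exact h1 x hx hpx
      · rw [← e0]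
        refine le_trans ?_ hle
        by_contra hcon
        have hcon' : Φ ω < Φ (Function.update ω a 0) := not_le.1 hcon
        have hlt : p a < 1 := lt_of_le_of_ne (hp1 a) hpa
        have hA : (1 - p a) * Φ ω < (1 - p a) * Φ (Function.update ω a 0) :=
          mul_lt_mul_of_pos_left hcon' (by linarith)
        have hB : p a * Φ ω ≤ p a * Φ (Function.update ω a 1) :=
          mul_le_mul_of_nonneg_left hc'.le (hp0 a)
        nlinarith

end Pool.Agent.Helper52.FB
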